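import Mathlib
import Pool.Agent.Y957.MC.Spec4
import Pool.Agent.Y259.MC.Per
import Pool.Agent.Y259.MC.Par

/-! Job MC4-PARM: Parseval for one block, a sum minus an integral. -/

set_option autoImplicit false

namespace Pool.Agent.Y758.MC

open MeasureTheory Filter Set Pool.Agent.Y957.MC Pool.Agent.Y259.MC

/-- linearity -/
theorem coef_sub {Λ : ℝ} {G H : ℝ → ℂ} {C C' : ℝ} (hG : Measurable G) (hC : ∀ s, ‖G s‖ ≤ C)
    (hH : Measurable H) (hC' : ∀ s, ‖H s‖ ≤ C') (k : ℤ) :
    coef Λ (fun s => G s - H s) k = coef Λ G k - coef Λ H k := by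
  unfold coef
  rw [← mul_sub, ← intervalIntegral.integral_sub]
  · congr 1
    apply intervalIntegral.integral_congr
    intro s _
    simp only
    ring
  · refine bdd_int (C := C) (hG.mul (by fun_prop)) (fun s => ?_) 0 Λ
    rw [Pi.mul_apply, norm_mul, norm_e', mul_one]
    exact hC s
  · refine bdd_int (C := C') (hH.mul (by fun_prop)) (fun s => ?_) 0 Λ
    rw [Pi.mul_apply, norm_mul, norm_e', mul_one]
    exact hC' s

/-- joint measurability -/
theorem joint {H : ℝ → ℂ} (hH : Measurable H) {z : ℝ → ℝ} (hz : Measurable z) :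
    Measurable fun p : ℝ × ℝ => H (p.1 + z p.2) :=
  hH.comp (measurable_fst.add (hz.comp measurable_snd))

/-- the averaged function is measurable -/
theorem meas_J {H : ℝ → ℂ} (hH : Measurable H) {z : ℝ → ℝ} (hz : Measurable z) {α β : ℝ}
    (hab : α ≤ β) : Measurable fun s => ∫ v in α..β, H (s + z v) := by
  have h1 : (fun s => ∫ v in α..β, H (s + z v)) = fun s => ∫ v in Ioc α β, H (s + z v) := by
    funext s
    rw [intervalIntegral.integral_of_le hab]
  rw [h1]
  exact (StronglyMeasurable.integral_prod_right (f := fun s v => H (s + z v))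
    (joint hH hz).stronglyMeasurable).measurable

theorem bdd_J {H : ℝ → ℂ} {C : ℝ} (hC : ∀ s, ‖H s‖ ≤ C) (z : ℝ → ℝ) (α β s : ℝ) :
    ‖∫ v in α..β, H (s + z v)‖ ≤ C * |β - α| :=
  intervalIntegral.norm_integral_le_of_norm_le_const fun _ _ => hC _

/-- the coefficients of the averaged function -/
theorem coef_J {Λ : ℝ} (hΛ : 0 < Λ) {H : ℝ → ℂ} {C : ℝ} (hH : Measurable H) (hC : ∀ s, ‖H s‖ ≤ C)
    (hp : Function.Periodic H Λ) {z : ℝ → ℝ} (hz : Measurable z) {α β : ℝ} (hab : α ≤ β) (k : ℤ) :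
    coef Λ (fun s => ∫ v in α..β, H (s + z v)) k =
      (∫ v in α..β, Complex.exp (((2 * Real.pi * k / Λ * z v : ℝ) : ℂ) * Complex.I)) *
        coef Λ H k := by
  have h1 : ∀ v, (1 / (Λ : ℂ)) * (∫ s in (0 : ℝ)..Λ, H (s + z v) *
      Complex.exp (-((2 * Real.pi * k / Λ * s : ℝ) : ℂ) * Complex.I)) =
      Complex.exp (((2 * Real.pi * k / Λ * z v : ℝ) : ℂ) * Complex.I) * coef Λ H k :=
    fun v => coef_shift hΛ hp (z v) k
  rw [← intervalIntegral.integral_mul_const]
  simp only [← h1]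
  rw [intervalIntegral.integral_const_mul]
  unfold coef
  congr 1
  simp only [intervalIntegral.integral_of_le hab, intervalIntegral.integral_of_le hΛ.le]
  have h2 : ∀ s, (∫ v in Ioc α β, H (s + z v)) *
      Complex.exp (-((2 * Real.pi * k / Λ * s : ℝ) : ℂ) * Complex.I) =
      ∫ v in Ioc α β, H (s + z v) *
        Complex.exp (-((2 * Real.pi * k / Λ * s : ℝ) : ℂ) * Complex.I) := by
    intro s
    rw [integral_mul_const]
  simp only [h2]
  apply integral_integral_swap
  have hm : Measurable fun p : ℝ × ℝ => H (p.1 + z p.2) *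
      Complex.exp (-((2 * Real.pi * k / Λ * p.1 : ℝ) : ℂ) * Complex.I) :=
    (joint hH hz).mul (by fun_prop)
  refine Integrable.of_bound hm.aestronglyMeasurable C (Eventually.of_forall fun p => ?_)
  show ‖H (p.1 + z p.2) * Complex.exp (-((2 * Real.pi * k / Λ * p.1 : ℝ) : ℂ) * Complex.I)‖ ≤ C
  rw [norm_mul, norm_e', mul_one]
  exact hC _

theorem parm : S_PARM := by
  intro Λ F I y A U α β N hΛ hF hb hA hU hN hαβ hym hy hyv
  have hΛ0 : 0 < Λ := by linarith
  obtain ⟨G, hG⟩ : ∃ G : ℝ → ℂ, G = fun s => F (A * U * Real.exp s) := ⟨_, rfl⟩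
  have hGm : Measurable G := by
    rw [hG]
    exact hF.comp (Real.measurable_exp.const_mul _)
  have hGb : ∀ s, ‖G s‖ ≤ 1 := by
    intro s
    rw [hG]
    exact hb _
  obtain ⟨H, hH⟩ : ∃ H : ℝ → ℂ, H = per Λ G := ⟨_, rfl⟩
  have hHm : Measurable H := hH ▸ meas_per hGm Λ
  have hHb : ∀ s, ‖H s‖ ≤ 1 := by
    intro s
    rw [hH]
    exact per_bdd hGb Λ s
  have hHp : Function.Periodic H Λ := hH ▸ per_periodic hΛ0 G
  have hc : ∀ k, cf Λ F (A * U) k = coef Λ H k := by
    intro k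
    rw [cf_eq, hH, coef_per hΛ0, hG]
  -- the function `D`
  have hzm : Measurable fun v => Real.log (y v) := Real.measurable_log.comp hym
  obtain ⟨S, hS⟩ : ∃ S : ℝ → ℂ, S = fun s => ∑ n ∈ I, (1 : ℂ) * H (s + Real.log (y n)) := ⟨_, rfl⟩
  obtain ⟨J, hJ⟩ : ∃ J : ℝ → ℂ, J = fun s => ∫ v in α..β, H (s + Real.log (y v)) := ⟨_, rfl⟩
  obtain ⟨D, hD⟩ : ∃ D : ℝ → ℂ, D = fun s => (1 / (N : ℂ)) * (S s - J s) := ⟨_, rfl⟩
  have hshm : ∀ n : ℕ, Measurable (fun s => H (s + Real.log (y n))) := fun n =>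
    hHm.comp (measurable_id.add_const _)
  have hSm : Measurable S := by
    rw [hS]
    exact Finset.measurable_fun_sum _ (fun n _ => (hshm n).const_mul _)
  have hJm : Measurable J := by
    rw [hJ]
    exact meas_J hHm hzm hαβ
  have hSb : ∀ s, ‖S s‖ ≤ I.card := by
    intro s
    rw [hS]
    refine (norm_sum_le _ _).trans ?_
    refine (Finset.sum_le_card_nsmul _ _ 1 fun n _ => ?_).trans ?_
    · rw [one_mul]
      exact hHb _
    · simp
  have hJb : ∀ s, ‖J s‖ ≤ 1 * |β - α| := by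
    intro s
    rw [hJ]
    exact bdd_J hHb _ _ _ _
  have hDm : Measurable D := by
    rw [hD]
    exact (hSm.sub hJm).const_mul _
  have hDb : ∀ s, ‖D s‖ ≤ ‖(1 / (N : ℂ))‖ * (I.card + 1 * |β - α|) := by
    intro s
    rw [hD]
    show ‖(1 / (N : ℂ)) * (S s - J s)‖ ≤ _
    rw [norm_mul]
    exact mul_le_mul_of_nonneg_left ((norm_sub_le _ _).trans (add_le_add (hSb s) (hJb s)))
      (norm_nonneg _)
  have hDc : ∀ k, coef Λ D k = btm Λ I y α β N k * coef Λ H k := by
    intro k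
    rw [hD, coef_const_mul, coef_sub hSm hSb hJm hJb, hS,
      coef_sum I (fun n s => H (s + Real.log (y n))) hshm (fun n s => hHb _) (fun _ => 1) k, hJ,
      coef_J hΛ0 hHm hHb hHp hzm hαβ, btm, mul_assoc (1 / (N : ℂ)) _ _, sub_mul, Finset.sum_mul]
    congr 2
    refine Finset.sum_congr rfl (fun n _ => ?_)
    rw [coef_shift hΛ0 hHp, one_mul]
  have hparD := parseval_per hΛ0 hDm hDb
  have hD2 : ∫ s in (0 : ℝ)..Λ, ‖D s‖ ^ 2
      = Λ * ∑' k : ℤ, ‖cf Λ F (A * U) k‖ ^ 2 * ‖btm Λ I y α β N k‖ ^ 2 := by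
    have h1 : ∑' k : ℤ, ‖cf Λ F (A * U) k‖ ^ 2 * ‖btm Λ I y α β N k‖ ^ 2
        = (1 / Λ) * ∫ s in (0 : ℝ)..Λ, ‖D s‖ ^ 2 := by
      rw [← hparD.tsum_eq]
      congr 1
      ext k
      rw [hDc, hc, norm_mul]
      ring
    rw [h1]
    field_simp
  rw [subst_exp hA]
  have hpt : ∀ s ∈ Ioo 0 (Real.log 2), ∀ w : ℝ, 1 ≤ w ∧ Real.log (2 * w) ≤ Λ →
      F (A * Real.exp s * (U * w)) = H (s + Real.log w) := by
    intro s hs w hw
    obtain ⟨y1, y2⟩ := hw
    have y0 : 0 < w := by linarith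
    have h2 : 0 ≤ s + Real.log w := by
      have := Real.log_nonneg y1
      linarith [hs.1]
    have h3 : s + Real.log w < Λ := by
      rw [Real.log_mul (by norm_num) y0.ne'] at y2
      linarith [hs.2]
    rw [hH, per_eq hΛ0 G h2 h3, hG]
    show _ = F (A * U * Real.exp (s + Real.log w))
    rw [Real.exp_add, Real.exp_log y0]
    congr 1
    ring
  have hkey : ∀ s ∈ Ioo 0 (Real.log 2), (A * Real.exp s) *
      ‖(1 / (N : ℂ)) * (∑ n ∈ I, F (A * Real.exp s * (U * y n)) -
        ∫ v in α..β, F (A * Real.exp s * (U * y v)))‖ ^ 2 ≤ 2 * A * ‖D s‖ ^ 2 := by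
    intro s hs
    have h1 : (1 / (N : ℂ)) * (∑ n ∈ I, F (A * Real.exp s * (U * y n)) -
        ∫ v in α..β, F (A * Real.exp s * (U * y v))) = D s := by
      rw [hD, hS, hJ]
      show _ = (1 / (N : ℂ)) * (∑ n ∈ I, (1 : ℂ) * H (s + Real.log (y n)) -
        ∫ v in α..β, H (s + Real.log (y v)))
      congr 2
      · refine Finset.sum_congr rfl (fun n hn => ?_)
        rw [one_mul]
        exact hpt s hs _ (hy n hn)
      · apply intervalIntegral.integral_congr
        intro v hv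
        rw [uIcc_of_le hαβ] at hv
        exact hpt s hs _ (hyv v hv)
    rw [h1]
    have h4 : Real.exp s ≤ 2 := by
      rw [← Real.exp_log (by norm_num : (0 : ℝ) < 2)]
      exact Real.exp_le_exp.2 hs.2.le
    have h5 : 0 ≤ ‖D s‖ ^ 2 := by positivity
    have h6 : A * Real.exp s ≤ 2 * A := by nlinarith
    exact mul_le_mul_of_nonneg_right h6 h5
  have hDi : ∀ b : ℝ, IntegrableOn (fun s => 2 * A * ‖D s‖ ^ 2) (Ioc 0 b) := by
    intro b
    refine Measure.integrableOn_of_bounded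
      (M := 2 * A * (‖(1 / (N : ℂ))‖ * (I.card + 1 * |β - α|)) ^ 2) (by simp)
      ((hDm.norm.pow_const 2).const_mul _).aestronglyMeasurable
      (Eventually.of_forall fun s => ?_)
    rw [Real.norm_eq_abs, abs_of_nonneg (by positivity)]
    have := hDb s
    gcongr
  have hlog : Real.log 2 ≤ Λ := by
    have := Real.log_two_lt_d9
    linarith
  calc ∫ s in Ioo 0 (Real.log 2), (A * Real.exp s) *
        ‖(1 / (N : ℂ)) * (∑ n ∈ I, F (A * Real.exp s * (U * y n)) -
          ∫ v in α..β, F (A * Real.exp s * (U * y v)))‖ ^ 2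
      ≤ ∫ s in Ioo 0 (Real.log 2), 2 * A * ‖D s‖ ^ 2 := by
        apply integral_mono_of_nonneg
        · refine (ae_restrict_iff' measurableSet_Ioo).2 (Eventually.of_forall fun s _ => ?_)
          show 0 ≤ _
          positivity
        · exact (hDi (Real.log 2)).mono_set Ioo_subset_Ioc_self
        · exact (ae_restrict_iff' measurableSet_Ioo).2 (Eventually.of_forall hkey)
    _ ≤ ∫ s in Ioc 0 Λ, 2 * A * ‖D s‖ ^ 2 := by
        apply setIntegral_mono_set (hDi Λ)
        · exact Eventually.of_forall fun s => by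
            show 0 ≤ _
            positivity
        · exact (Ioo_subset_Ioc_self.trans (Ioc_subset_Ioc_right hlog)).eventuallyLE
    _ = 2 * A * ∫ s in (0 : ℝ)..Λ, ‖D s‖ ^ 2 := by
        rw [intervalIntegral.integral_of_le hΛ0.le, integral_const_mul]
    _ = _ := by
        rw [hD2]
        ring

end Pool.Agent.Y758.MC
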